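import Mathlib

open MeasureTheory Set Metric
open scoped InnerProductSpace ENNReal Topology

namespace Pool.Agent.Results.MP_7f2f72_gt.PerimeterBisect

/-! ### Definitions of the problem -/

/-- the Euclidean plane -/
abbrev E := EuclideanSpace ℝ (Fin 2)

/-- The line through `O` with normal vector `w` bisects the perimeter of the curve `C`: the two
open half-planes bounded by that line contain parts of `C` of equal length.  Length is the
one-dimensional Hausdorff measure (for which a segment has measure equal to its length). -/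
def Bisects (C : Set E) (O w : E) : Prop :=
  μH[1] (C ∩ {x | 0 < ⟪w, x - O⟫_ℝ}) = μH[1] (C ∩ {x | ⟪w, x - O⟫_ℝ < 0})

/-- The point reflection `x ↦ 2 O - x` maps `C` onto itself. -/
def CentrallySymmetric (C : Set E) (O : E) : Prop :=
  (fun x : E => (2 : ℝ) • O - x) '' C = C

/-! ### Elementary plane geometry -/

theorem inner2 (x y : E) : ⟪x, y⟫_ℝ = x 0 * y 0 + x 1 * y 1 := by
  simp [PiLp.inner_apply, Fin.sum_univ_two]
  ring

theorem ext2 {x y : E} (h0 : x 0 = y 0) (h1 : x 1 = y 1) : x = y := by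
  ext i
  fin_cases i
  · exact h0
  · exact h1

/-- rotation by a quarter turn -/
noncomputable def J (x : E) : E := !₂[-x 1, x 0]

@[simp] theorem J_zero' (x : E) : J x 0 = -x 1 := rfl
@[simp] theorem J_one' (x : E) : J x 1 = x 0 := rfl

theorem J_inner_self (x : E) : ⟪x, J x⟫_ℝ = 0 := by
  rw [inner2]; simp; ring

theorem ne_zero_cases {v : E} (hv : v ≠ 0) : 0 < v 0 ^ 2 + v 1 ^ 2 := by
  by_contra h
  push Not at h
  have h0 : v 0 = 0 := by nlinarith [sq_nonneg (v 0), sq_nonneg (v 1)]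
  have h1 : v 1 = 0 := by nlinarith [sq_nonneg (v 0), sq_nonneg (v 1)]
  exact hv (ext2 (by simpa using h0) (by simpa using h1))

theorem J_ne_zero {v : E} (hv : v ≠ 0) : J v ≠ 0 := by
  intro h
  have h0 : J v 0 = 0 := by rw [h]; rfl
  have h1 : J v 1 = 0 := by rw [h]; rfl
  have := ne_zero_cases hv
  simp only [J_zero', J_one'] at h0 h1
  nlinarith

/-- two inner products determine a point -/
theorem eq_of_inner {v p q : E} (hv : v ≠ 0) (h1 : ⟪v, p⟫_ℝ = ⟪v, q⟫_ℝ)
    (h2 : ⟪J v, p⟫_ℝ = ⟪J v, q⟫_ℝ) : p = q := by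
  have hpos := ne_zero_cases hv
  rw [inner2, inner2] at h1 h2
  simp only [J_zero', J_one'] at h2
  apply ext2
  · have : (v 0 ^ 2 + v 1 ^ 2) * (p 0 - q 0) = 0 := by linear_combination v 0 * h1 - v 1 * h2
    rcases mul_eq_zero.1 this with h | h
    · exact absurd h hpos.ne'
    · linarith
  · have : (v 0 ^ 2 + v 1 ^ 2) * (p 1 - q 1) = 0 := by linear_combination v 1 * h1 + v 0 * h2
    rcases mul_eq_zero.1 this with h | h
    · exact absurd h hpos.ne'
    · linarith

theorem exists_proj (A : Set E) (hne : A.Nonempty) (hc : IsClosed A) (hconv : Convex ℝ A) :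
    ∃ π : E → E, LipschitzWith 1 π ∧
      ∀ x ∈ A, ∀ n : E, (∀ y ∈ A, ⟪n, y - x⟫_ℝ ≤ 0) → ∀ t : ℝ, 0 ≤ t → π (x + t • n) = x := by
  have h1 : ∀ x : E, ∃ y ∈ A, ∀ z ∈ A, ⟪x - y, z - y⟫_ℝ ≤ 0 := by
    intro x
    obtain ⟨y, hy, hmin⟩ := exists_norm_eq_iInf_of_complete_convex hne hc.isComplete hconv x
    exact ⟨y, hy, (norm_eq_iInf_iff_real_inner_le_zero hconv hy).1 hmin⟩
  choose π hπA hπ using h1
  have key : ∀ x y x' y' : E, ⟪x - x', y' - x'⟫_ℝ ≤ 0 → ⟪y - y', x' - y'⟫_ℝ ≤ 0 →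
      ‖x' - y'‖ ^ 2 ≤ ⟪x - y, x' - y'⟫_ℝ := by
    intro x y x' y' e1 e2
    rw [← real_inner_self_eq_norm_sq]
    rw [inner2] at *
    simp only [PiLp.sub_apply] at *
    rw [inner2]
    simp only [PiLp.sub_apply]
    nlinarith
  refine ⟨π, ?_, ?_⟩
  · apply LipschitzWith.of_dist_le_mul
    intro x y
    simp only [NNReal.coe_one, one_mul, dist_eq_norm]
    have e := key x y (π x) (π y) (hπ x (π y) (hπA y)) (hπ y (π x) (hπA x))
    have e3 := real_inner_le_norm (x - y) (π x - π y)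
    by_contra hlt
    push Not at hlt
    nlinarith [norm_nonneg (x - y), norm_nonneg (π x - π y)]
  · intro x hx n hn t ht
    have e1 := hπ (x + t • n) x hx
    have e2 : ⟪x + t • n - x, π (x + t • n) - x⟫_ℝ ≤ 0 := by
      rw [add_sub_cancel_left, inner_smul_left]
      have := hn (π (x + t • n)) (hπA _)
      simp only [conj_trivial]
      nlinarith
    have e3 := key (x + t • n) (x + t • n) (π (x + t • n)) x e1 e2
    rw [sub_self, inner_zero_left] at e3
    have : ‖π (x + t • n) - x‖ = 0 := by nlinarith [norm_nonneg (π (x + t • n) - x)]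
    exact sub_eq_zero.1 (norm_eq_zero.1 this)

theorem exit_point (K : Set E) (hK : IsCompact K) {x n : E} (hx : x ∈ K) (hn : n ≠ 0) :
    ∃ t : ℝ, 0 ≤ t ∧ x + t • n ∈ K ∧ ∀ s : ℝ, t < s → x + s • n ∉ K := by
  obtain ⟨R, hR⟩ := hK.isBounded.exists_norm_le
  have hnn : 0 < ‖n‖ := norm_pos_iff.2 hn
  set B := (R + ‖x‖) / ‖n‖ with hB
  have hbd : ∀ t : ℝ, 0 ≤ t → x + t • n ∈ K → t ≤ B := by
    intro t ht h
    have h1 := hR _ h
    have h2 : ‖t • n‖ ≤ ‖x + t • n‖ + ‖x‖ := by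
      have := norm_sub_le (x + t • n) x
      rwa [add_sub_cancel_left] at this
    rw [norm_smul, Real.norm_of_nonneg ht] at h2
    rw [hB, le_div_iff₀ hnn]
    linarith
  have hcont : Continuous fun t : ℝ => x + t • n := by fun_prop
  have hcomp : IsCompact (Icc (0 : ℝ) B ∩ (fun t : ℝ => x + t • n) ⁻¹' K) :=
    isCompact_Icc.inter_right (hK.isClosed.preimage hcont)
  have hne : (Icc (0 : ℝ) B ∩ (fun t : ℝ => x + t • n) ⁻¹' K).Nonempty := by
    refine ⟨0, ⟨le_rfl, hbd 0 le_rfl (by simpa using hx)⟩, ?_⟩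
    simpa using hx
  obtain ⟨t, ht, htmax⟩ := hcomp.exists_isGreatest hne
  refine ⟨t, ht.1.1, ht.2, ?_⟩
  intro s hs hsK
  have hs0 : 0 ≤ s := ht.1.1.trans hs.le
  have : s ≤ t := htmax ⟨⟨hs0, hbd s hs0 hsK⟩, hsK⟩
  linarith

theorem interior_push {K : Set E} {w : E} (hw : w ∈ interior K) (n : E) :
    ∃ ε : ℝ, 0 < ε ∧ w + ε • n ∈ K := by
  have hcont : Continuous fun t : ℝ => w + t • n := by fun_prop
  have h0 : (fun t : ℝ => w + t • n) 0 ∈ interior K := by simpa using hw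
  have hnhds : ∀ᶠ t in 𝓝 (0 : ℝ), w + t • n ∈ interior K :=
    hcont.continuousAt.eventually (isOpen_interior.mem_nhds h0)
  obtain ⟨δ, hδ, hball⟩ := Metric.eventually_nhds_iff.1 hnhds
  refine ⟨δ / 2, by positivity, interior_subset (hball ?_)⟩
  rw [Real.dist_eq, sub_zero, abs_of_pos (by positivity)]
  linarith

/-- the section of a compact convex set by a line is a segment -/
theorem section_segment (K : Set E) (hK : IsCompact K) (v : E) (hv : v ≠ 0) (u : ℝ)
    (hne : (K ∩ {x | ⟪v, x⟫_ℝ = u}).Nonempty) :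
    ∃ p ∈ K ∩ {x | ⟪v, x⟫_ℝ = u}, ∃ q ∈ K ∩ {x | ⟪v, x⟫_ℝ = u},
      K ∩ {x | ⟪v, x⟫_ℝ = u} ⊆ segment ℝ p q ∧
      ∀ z ∈ K ∩ {x | ⟪v, x⟫_ℝ = u}, ⟪J v, p⟫_ℝ ≤ ⟪J v, z⟫_ℝ ∧ ⟪J v, z⟫_ℝ ≤ ⟪J v, q⟫_ℝ := by
  have hcl : IsClosed {x : E | ⟪v, x⟫_ℝ = u} := isClosed_eq (by fun_prop) continuous_const
  have hcomp : IsCompact (K ∩ {x | ⟪v, x⟫_ℝ = u}) := hK.inter_right hcl
  have hg : Continuous fun x : E => ⟪J v, x⟫_ℝ := by fun_prop
  obtain ⟨p, hp, hpmin⟩ := hcomp.exists_isMinOn hne hg.continuousOn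
  obtain ⟨q, hq, hqmax⟩ := hcomp.exists_isMaxOn hne hg.continuousOn
  refine ⟨p, hp, q, hq, ?_, fun z hz => ⟨hpmin hz, hqmax hz⟩⟩
  intro z hz
  have h1 : ⟪J v, p⟫_ℝ ≤ ⟪J v, z⟫_ℝ := hpmin hz
  have h2 : ⟪J v, z⟫_ℝ ≤ ⟪J v, q⟫_ℝ := hqmax hz
  have hpu : ⟪v, p⟫_ℝ = u := hp.2
  have hqu : ⟪v, q⟫_ℝ = u := hq.2
  have hzu : ⟪v, z⟫_ℝ = u := hz.2
  rcases (h1.trans h2).eq_or_lt with heq | hlt
  · have : z = p := eq_of_inner hv (by rw [hzu, hpu]) (le_antisymm (heq ▸ h2) h1)
    rw [this]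
    exact left_mem_segment ℝ p q
  · set D := ⟪J v, q⟫_ℝ - ⟪J v, p⟫_ℝ with hD
    have hDpos : 0 < D := by linarith
    set l := (⟪J v, z⟫_ℝ - ⟪J v, p⟫_ℝ) / D with hl
    have hl0 : 0 ≤ l := div_nonneg (by linarith) hDpos.le
    have hl1 : l ≤ 1 := by rw [hl, div_le_one hDpos]; linarith
    refine ⟨1 - l, l, by linarith, hl0, by ring, ?_⟩
    symm
    apply eq_of_inner hv
    · rw [inner_add_right, inner_smul_right, inner_smul_right, hpu, hqu, hzu]; ring
    · rw [inner_add_right, inner_smul_right, inner_smul_right]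
      have : l * D = ⟪J v, z⟫_ℝ - ⟪J v, p⟫_ℝ := div_mul_cancel₀ _ hDpos.ne'
      rw [hD] at this
      linarith

theorem hm_finite_null (s : Set E) (hs : s.Finite) : μH[1] s = 0 := by
  have := Measure.nullSingletonClass_hausdorff E (d := 1) one_pos
  exact hs.measure_zero _

theorem hm_image_le {f : E → E} (hf : LipschitzWith 1 f) (s : Set E) :
    μH[1] (f '' s) ≤ μH[1] s := by
  have := hf.hausdorffMeasure_image_le (d := 1) zero_le_one s
  simpa using this

theorem isLin (n : E) : IsLinearMap ℝ (fun z : E => ⟪n, z⟫_ℝ) where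
  map_add x y := inner_add_right _ _ _
  map_smul c x := by rw [inner_smul_right]; rfl

theorem convex_leS (n : E) (c : ℝ) : Convex ℝ {z : E | ⟪n, z⟫_ℝ ≤ c} :=
  convex_halfSpace_le (isLin n) c

theorem seg_comb (x w n : E) (t τ : ℝ) (ht : t ≠ 0) (hw : w = x + t • n) :
    x + τ • n = (1 - τ / t) • x + (τ / t) • w := by
  rw [hw, smul_add, smul_smul, div_mul_cancel₀ _ ht, ← add_assoc, ← add_smul]
  simp

/-- one side of the triangle is covered by the projection of the cap -/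
theorem side_cover (K : Set E) (hK : IsCompact K) (hconv : Convex ℝ K)
    (v : E) (u : ℝ) {p q y : E} (hy : y ∈ K) (hp : p ∈ K) (hq : q ∈ K)
    (hpu : ⟪v, p⟫_ℝ = u) (hqu : ⟪v, q⟫_ℝ = u) (hyu : u < ⟪v, y⟫_ℝ) (hpq : p ≠ q)
    (hsec : K ∩ {x | ⟪v, x⟫_ℝ = u} ⊆ segment ℝ p q)
    (T : Set E) (hT : T = convexHull ℝ {p, q, y}) (hTK : T ⊆ K) (π : E → E)
    (hπ : ∀ x ∈ T, ∀ n : E, (∀ y ∈ T, ⟪n, y - x⟫_ℝ ≤ 0) → ∀ t : ℝ, 0 ≤ t → π (x + t • n) = x)
    {x : E} (hx : x ∈ openSegment ℝ p y) :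
    x ∈ π '' (frontier K ∩ {x | u < ⟪v, x⟫_ℝ}) := by
  have hvne : v ≠ 0 := by
    rintro rfl
    simp only [inner_zero_left] at hpu hyu
    linarith
  set d := y - p with hd
  set e := q - p with he
  have hvd : 0 < ⟪v, d⟫_ℝ := by rw [hd, inner_sub_right]; linarith
  have hve : ⟪v, e⟫_ℝ = 0 := by rw [he, inner_sub_right]; linarith
  have hene : e ≠ 0 := sub_ne_zero.2 (Ne.symm hpq)
  have hc : ⟪J d, e⟫_ℝ ≠ 0 := by
    intro h0
    have h1 := h0
    rw [inner2] at h1 hve hvd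
    simp only [J_zero', J_one'] at h1
    have a0 : e 0 * (v 0 * d 0 + v 1 * d 1) = 0 := by linear_combination d 0 * hve - v 1 * h1
    have a1 : e 1 * (v 0 * d 0 + v 1 * d 1) = 0 := by linear_combination d 1 * hve + v 0 * h1
    have b0 : e 0 = 0 := (mul_eq_zero.1 a0).resolve_right hvd.ne'
    have b1 : e 1 = 0 := (mul_eq_zero.1 a1).resolve_right hvd.ne'
    exact hene (ext2 (by simpa using b0) (by simpa using b1))
  obtain ⟨n, hnd, hne⟩ : ∃ n : E, ⟪n, d⟫_ℝ = 0 ∧ ⟪n, e⟫_ℝ < 0 := by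
    rcases lt_or_gt_of_ne hc with h | h
    · refine ⟨J d, ?_, h⟩
      rw [real_inner_comm]; exact J_inner_self d
    · refine ⟨-J d, ?_, ?_⟩
      · rw [inner_neg_left, real_inner_comm, J_inner_self, neg_zero]
      · rw [inner_neg_left]; linarith
  have hn0 : n ≠ 0 := by
    rintro rfl
    simp at hne
  have hnp : ⟪n, y⟫_ℝ = ⟪n, p⟫_ℝ := by
    rw [hd, inner_sub_right] at hnd; linarith
  have hnq : ⟪n, q⟫_ℝ < ⟪n, p⟫_ℝ := by
    rw [he, inner_sub_right] at hne; linarith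
  obtain ⟨a, s, ha, hs, has, rfl⟩ := hx
  have hle : ∀ z ∈ T, ⟪n, z⟫_ℝ ≤ ⟪n, p⟫_ℝ := by
    have hsub : T ⊆ {z : E | ⟪n, z⟫_ℝ ≤ ⟪n, p⟫_ℝ} := by
      rw [hT]
      apply convexHull_min
      · intro z hz
        simp only [mem_insert_iff, mem_singleton_iff] at hz
        rcases hz with h | h | h
        · rw [h]; exact le_refl ⟪n, p⟫_ℝ
        · rw [h]; exact hnq.le
        · rw [h]; exact hnp.le
      · exact convex_leS n _
    exact fun z hz => hsub hz
  have hpT : p ∈ T := by rw [hT]; exact subset_convexHull ℝ _ (by simp)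
  have hqT : q ∈ T := by rw [hT]; exact subset_convexHull ℝ _ (by simp)
  have hyT : y ∈ T := by rw [hT]; exact subset_convexHull ℝ _ (by simp)
  have hTconv : Convex ℝ T := by rw [hT]; exact convex_convexHull ℝ _
  set x := a • p + s • y with hxdef
  have hxT : x ∈ T := hTconv hpT hyT ha.le hs.le has
  have hnx : ⟪n, x⟫_ℝ = ⟪n, p⟫_ℝ := by
    rw [hxdef, inner_add_right, inner_smul_right, inner_smul_right, hnp, ← add_mul, has, one_mul]
  have hvx : u < ⟪v, x⟫_ℝ := by
    rw [hxdef, inner_add_right, inner_smul_right, inner_smul_right, hpu]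
    have : u = a * u + s * u := by rw [← add_mul, has, one_mul]
    nlinarith
  obtain ⟨t, ht, hwK, hexit⟩ := exit_point K hK (hTK hxT) hn0
  set w := x + t • n with hw
  refine ⟨w, ⟨?_, ?_⟩, ?_⟩
  · refine ⟨subset_closure hwK, fun hwint => ?_⟩
    obtain ⟨ε, hε, hin⟩ := interior_push hwint n
    apply hexit (t + ε) (by linarith)
    have : x + (t + ε) • n = w + ε • n := by rw [hw, add_smul]; abel
    rw [this]; exact hin
  · show u < ⟪v, w⟫_ℝ
    by_contra hcon
    push Not at hcon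
    have hvw : ⟪v, w⟫_ℝ = ⟪v, x⟫_ℝ + t * ⟪v, n⟫_ℝ := by
      rw [hw, inner_add_right, inner_smul_right]
    have hvn : ⟪v, n⟫_ℝ < 0 := by
      by_contra h
      push Not at h
      nlinarith
    set τ := (⟪v, x⟫_ℝ - u) / (-⟪v, n⟫_ℝ) with hτ
    have hτpos : 0 < τ := div_pos (by linarith) (by linarith)
    have hτmul : τ * (-⟪v, n⟫_ℝ) = ⟪v, x⟫_ℝ - u := div_mul_cancel₀ _ (by linarith : -⟪v, n⟫_ℝ ≠ 0)
    have hτt : τ ≤ t := by
      by_contra h
      push Not at h
      nlinarith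
    have htpos : 0 < t := lt_of_lt_of_le hτpos hτt
    have hzK : x + τ • n ∈ K := by
      rw [seg_comb x w n t τ htpos.ne' hw]
      apply hconv (hTK hxT) hwK
      · rw [sub_nonneg, div_le_one htpos]; exact hτt
      · positivity
      · ring
    have hzu : ⟪v, x + τ • n⟫_ℝ = u := by
      rw [inner_add_right, inner_smul_right]; linarith
    have hzseg := hsec ⟨hzK, hzu⟩
    have hzT : x + τ • n ∈ T := hTconv.segment_subset hpT hqT hzseg
    have := hle _ hzT
    rw [inner_add_right, inner_smul_right, hnx, real_inner_self_eq_norm_sq] at this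
    have hnn : 0 < ‖n‖ := norm_pos_iff.2 hn0
    nlinarith [mul_pos hτpos (pow_pos hnn 2)]
  · apply hπ x hxT n _ t ht
    intro z hz
    rw [inner_sub_right, hnx]
    linarith [hle z hz]

/-- an arc cut off by a line is longer than the chord -/
theorem cap (K : Set E) (hK : IsCompact K) (hconv : Convex ℝ K) (hint : (interior K).Nonempty)
    (v : E) (u : ℝ) {a b : E} (ha : a ∈ K) (hb : b ∈ K) (hau : ⟪v, a⟫_ℝ < u)
    (hbu : u < ⟪v, b⟫_ℝ) :
    μH[1] (K ∩ {x | ⟪v, x⟫_ℝ = u}) < μH[1] (frontier K ∩ {x | u < ⟪v, x⟫_ℝ}) := by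
  have hvne : v ≠ 0 := by
    rintro rfl
    simp only [inner_zero_left] at hau hbu
    linarith
  -- an interior point on the line
  obtain ⟨z0, hz0, hz0u⟩ : ∃ z0 ∈ interior K, ⟪v, z0⟫_ℝ = u := by
    obtain ⟨c, hc⟩ := hint
    have hgo : ∀ b' ∈ K, (⟪v, c⟫_ℝ < u ∧ u < ⟪v, b'⟫_ℝ) ∨ (⟪v, b'⟫_ℝ < u ∧ u < ⟪v, c⟫_ℝ) →
        ∃ z0 ∈ interior K, ⟪v, z0⟫_ℝ = u := by
      intro b' hb' hcase
      set s := (u - ⟪v, c⟫_ℝ) / (⟪v, b'⟫_ℝ - ⟪v, c⟫_ℝ) with hs
      have hden : ⟪v, b'⟫_ℝ - ⟪v, c⟫_ℝ ≠ 0 := by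
        rcases hcase with h | h
        · intro h0; linarith
        · intro h0; linarith
      have hs0 : 0 < s ∧ s < 1 := by
        rcases hcase with h | h
        · constructor
          · exact div_pos (by linarith) (by linarith)
          · rw [hs, div_lt_one (by linarith)]; linarith
        · constructor
          · exact div_pos_of_neg_of_neg (by linarith) (by linarith)
          · rw [hs, div_lt_one_of_neg (by linarith)]; linarith
      refine ⟨(1 - s) • c + s • b', ?_, ?_⟩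
      · exact hconv.openSegment_interior_self_subset_interior hc hb'
          ⟨1 - s, s, by linarith, by linarith, by ring, rfl⟩
      · have : s * (⟪v, b'⟫_ℝ - ⟪v, c⟫_ℝ) = u - ⟪v, c⟫_ℝ := div_mul_cancel₀ _ hden
        rw [inner_add_right, inner_smul_right, inner_smul_right]
        linarith
    rcases lt_trichotomy ⟪v, c⟫_ℝ u with h | h | h
    · exact hgo b hb (Or.inl ⟨h, hbu⟩)
    · exact ⟨c, hc, h⟩
    · exact hgo a ha (Or.inr ⟨hau, h⟩)
  obtain ⟨p, hp, q, hq, hsec, hends⟩ :=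
    section_segment K hK v hvne u ⟨z0, interior_subset hz0, hz0u⟩
  have hpu : ⟪v, p⟫_ℝ = u := hp.2
  have hqu : ⟪v, q⟫_ℝ = u := hq.2
  have hpq : p ≠ q := by
    obtain ⟨ε, hε, hin⟩ := interior_push hz0 (J v)
    have hmem : z0 + ε • J v ∈ K ∩ {x | ⟪v, x⟫_ℝ = u} := by
      refine ⟨hin, ?_⟩
      show ⟪v, z0 + ε • J v⟫_ℝ = u
      rw [inner_add_right, inner_smul_right, J_inner_self, hz0u]; ring
    have h1 := (hends z0 ⟨interior_subset hz0, hz0u⟩).1
    have h2 := (hends _ hmem).2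
    rw [inner_add_right, inner_smul_right, real_inner_self_eq_norm_sq] at h2
    have hJ : 0 < ‖J v‖ := norm_pos_iff.2 (J_ne_zero hvne)
    rintro rfl
    nlinarith [mul_pos hε (pow_pos hJ 2)]
  -- the farthest point
  have hg : Continuous fun x : E => ⟪v, x⟫_ℝ := by fun_prop
  obtain ⟨y, hyK, hymax⟩ := hK.exists_isMaxOn ⟨b, hb⟩ hg.continuousOn
  have hyu : u < ⟪v, y⟫_ℝ := lt_of_lt_of_le hbu (hymax hb)
  set T := convexHull ℝ ({p, q, y} : Set E) with hT
  have hTK : T ⊆ K := by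
    apply convexHull_min _ hconv
    intro z hz
    simp only [mem_insert_iff, mem_singleton_iff] at hz
    rcases hz with rfl | rfl | rfl
    · exact hp.1
    · exact hq.1
    · exact hyK
  have hTcl : IsClosed T := by
    have : ({p, q, y} : Set E).Finite := by simp
    exact (this.isCompact_convexHull ℝ).isClosed
  have hTne : T.Nonempty := ⟨p, subset_convexHull ℝ _ (by simp)⟩
  obtain ⟨π, hπL, hπ⟩ := exists_proj T hTne hTcl (convex_convexHull ℝ _)
  set Γ := frontier K ∩ {x | u < ⟪v, x⟫_ℝ} with hΓ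
  have hcov1 : openSegment ℝ p y ⊆ π '' Γ := fun x hx =>
    side_cover K hK hconv v u hyK hp.1 hq.1 hpu hqu hyu hpq hsec T hT hTK π hπ hx
  have hcov2 : openSegment ℝ q y ⊆ π '' Γ := fun x hx =>
    side_cover K hK hconv v u hyK hq.1 hp.1 hqu hpu hyu (Ne.symm hpq)
      (by rw [segment_symm]; exact hsec) T
      (by rw [hT]; congr 1; ext z; simp only [mem_insert_iff, mem_singleton_iff]; tauto)
      hTK π hπ hx
  have hcov : segment ℝ p y ∪ segment ℝ q y ⊆ π '' Γ ∪ {p, q, y} := by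
    rw [← insert_endpoints_openSegment (𝕜 := ℝ) p y, ← insert_endpoints_openSegment (𝕜 := ℝ) q y]
    rintro z (hz | hz)
    · simp only [mem_insert_iff] at hz
      rcases hz with rfl | rfl | hz
      · right; simp
      · right; simp
      · left; exact hcov1 hz
    · simp only [mem_insert_iff] at hz
      rcases hz with rfl | rfl | hz
      · right; simp
      · right; simp
      · left; exact hcov2 hz
  have hz3 : μH[1] ({p, q, y} : Set E) = 0 := hm_finite_null _ (by simp)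
  have hle1 : μH[1] (segment ℝ p y ∪ segment ℝ q y) ≤ μH[1] Γ := by
    calc μH[1] (segment ℝ p y ∪ segment ℝ q y) ≤ μH[1] (π '' Γ ∪ {p, q, y}) := measure_mono hcov
      _ ≤ μH[1] (π '' Γ) + μH[1] ({p, q, y} : Set E) := measure_union_le _ _
      _ = μH[1] (π '' Γ) := by rw [hz3, add_zero]
      _ ≤ μH[1] Γ := hm_image_le hπL _
  have hinter : segment ℝ p y ∩ segment ℝ q y ⊆ {y} := by
    rintro z ⟨⟨a1, s1, ha1, hs1, has1, h1⟩, ⟨a2, s2, ha2, hs2, has2, h2⟩⟩
    have e1 : ⟪v, z⟫_ℝ = a1 * u + s1 * ⟪v, y⟫_ℝ := by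
      rw [← h1, inner_add_right, inner_smul_right, inner_smul_right, hpu]
    have e2 : ⟪v, z⟫_ℝ = a2 * u + s2 * ⟪v, y⟫_ℝ := by
      rw [← h2, inner_add_right, inner_smul_right, inner_smul_right, hqu]
    have hss : s1 = s2 := by
      have : (s1 - s2) * (⟪v, y⟫_ℝ - u) = 0 := by
        have ea1 : a1 = 1 - s1 := by linarith
        have ea2 : a2 = 1 - s2 := by linarith
        rw [ea1] at e1
        rw [ea2] at e2
        linear_combination e2 - e1
      rcases mul_eq_zero.1 this with h | h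
      · linarith
      · linarith
    have haa : a1 = a2 := by linarith
    rw [← hss, ← haa] at h2
    have h3 : a1 • p = a1 • q := by
      have := h1.trans h2.symm
      exact add_right_cancel this
    rcases eq_or_ne a1 0 with h0 | h0
    · rw [h0] at h1 has1
      have : s1 = 1 := by linarith
      rw [this] at h1
      simp only [zero_smul, one_smul, zero_add] at h1
      exact h1.symm
    · exact absurd (smul_right_injective (R := ℝ) E h0 h3) hpq
  have hsum : μH[1] (segment ℝ p y ∪ segment ℝ q y) = edist p y + edist q y := by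
    have hmeas : MeasurableSet (segment ℝ q y) := by
      rw [← convexHull_pair]
      have : ({q, y} : Set E).Finite := by simp
      exact (this.isCompact_convexHull ℝ).isClosed.measurableSet
    have h1 := measure_union_add_inter (μ := (μH[1] : Measure E)) (segment ℝ p y) hmeas
    rw [measure_mono_null hinter (hm_finite_null _ (finite_singleton y)), add_zero,
      hausdorffMeasure_segment, hausdorffMeasure_segment] at h1
    exact h1
  have hlt : edist p q < edist p y + edist q y := by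
    rw [edist_dist, edist_dist, edist_dist, ← ENNReal.ofReal_add dist_nonneg dist_nonneg]
    apply (ENNReal.ofReal_lt_ofReal_iff_of_nonneg dist_nonneg).2
    rw [dist_comm q y]
    rcases (dist_triangle p y q).lt_or_eq with h | h
    · exact h
    · exfalso
      have hw : Wbtw ℝ p y q := dist_add_dist_eq_iff.1 h.symm
      obtain ⟨r, hr, hry⟩ := hw
      have : ⟪v, y⟫_ℝ = u := by
        rw [← hry, AffineMap.lineMap_apply_module, inner_add_right, inner_smul_right,
          inner_smul_right, hpu, hqu]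
        ring
      linarith
  calc μH[1] (K ∩ {x | ⟪v, x⟫_ℝ = u}) ≤ μH[1] (segment ℝ p q) := measure_mono hsec
    _ = edist p q := hausdorffMeasure_segment _ _
    _ < edist p y + edist q y := hlt
    _ = μH[1] (segment ℝ p y ∪ segment ℝ q y) := hsum.symm
    _ ≤ μH[1] Γ := hle1

theorem riesz (f : StrongDual ℝ E) : ∃ n : E, ∀ y, ⟪n, y⟫_ℝ = f y :=
  ⟨(InnerProductSpace.toDual ℝ E).symm f, fun _ => InnerProductSpace.toDual_symm_apply⟩

/-- supporting normal -/
theorem support (K : Set E) (hconv : Convex ℝ K) (hint : (interior K).Nonempty) {x : E}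
    (hx : x ∉ interior K) :
    ∃ n : E, n ≠ 0 ∧ (∀ y ∈ interior K, ⟪n, y⟫_ℝ < ⟪n, x⟫_ℝ) ∧
      ∀ y ∈ K, ⟪n, y⟫_ℝ ≤ ⟪n, x⟫_ℝ := by
  obtain ⟨f, hf⟩ := geometric_hahn_banach_open_point hconv.interior isOpen_interior hx
  obtain ⟨n, hfn⟩ := riesz f
  refine ⟨n, ?_, ?_, ?_⟩
  · intro h0
    obtain ⟨c, hc⟩ := hint
    have := hf c hc
    rw [← hfn, ← hfn, h0, inner_zero_left, inner_zero_left] at this
    exact lt_irrefl _ this
  · intro y hy
    rw [hfn, hfn]; exact hf y hy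
  · intro y hy
    have hcl : y ∈ closure (interior K) := by
      rw [hconv.closure_interior_eq_closure_of_nonempty_interior hint]
      exact subset_closure hy
    have hclosed : IsClosed {z : E | ⟪n, z⟫_ℝ ≤ ⟪n, x⟫_ℝ} :=
      isClosed_le (by fun_prop) continuous_const
    have hsub : interior K ⊆ {z : E | ⟪n, z⟫_ℝ ≤ ⟪n, x⟫_ℝ} := by
      intro z hz
      show ⟪n, z⟫_ℝ ≤ ⟪n, x⟫_ℝ
      rw [hfn, hfn]; exact (hf z hz).le
    exact closure_minimal hsub hclosed hcl

/-- unit vector of a given direction -/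
noncomputable def dir (τ : ℝ) : E := !₂[Real.cos τ, Real.sin τ]

theorem dir_zero (τ : ℝ) : dir τ 0 = Real.cos τ := rfl
theorem dir_one (τ : ℝ) : dir τ 1 = Real.sin τ := rfl

theorem norm_dir (τ : ℝ) : ‖dir τ‖ = 1 := by
  have h : ‖dir τ‖ ^ 2 = 1 := by
    rw [← real_inner_self_eq_norm_sq, inner2, dir_zero, dir_one]
    nlinarith [Real.sin_sq_add_cos_sq τ]
  nlinarith [norm_nonneg (dir τ)]

theorem continuous_dir : Continuous dir := by
  unfold dir
  refine (PiLp.continuous_toLp 2 _).comp ?_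
  refine continuous_pi fun i => ?_
  fin_cases i
  · exact Real.continuous_cos
  · exact Real.continuous_sin

theorem polar (α : ℝ) (x : E) (hx : x ≠ 0) :
    ∃ r : ℝ, 0 < r ∧ ∃ τ ∈ Ico α (α + 2 * Real.pi), x = r • dir τ := by
  set z : ℂ := ⟨x 0, x 1⟩ with hz
  have hz0 : z ≠ 0 := by
    intro h
    apply hx
    have h0 := congrArg Complex.re h
    have h1 := congrArg Complex.im h
    exact ext2 (by simpa [hz] using h0) (by simpa [hz] using h1)
  refine ⟨‖z‖, norm_pos_iff.2 hz0, toIcoMod Real.two_pi_pos α z.arg,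
    toIcoMod_mem_Ico Real.two_pi_pos α z.arg, ?_⟩
  have hc : Real.cos (toIcoMod Real.two_pi_pos α z.arg) = Real.cos z.arg := by
    rw [toIcoMod, zsmul_eq_mul, Real.cos_sub_int_mul_two_pi]
  have hs : Real.sin (toIcoMod Real.two_pi_pos α z.arg) = Real.sin z.arg := by
    rw [toIcoMod, zsmul_eq_mul, Real.sin_sub_int_mul_two_pi]
  apply ext2
  · rw [PiLp.smul_apply, dir_zero, hc, smul_eq_mul, Complex.norm_mul_cos_arg]
  · rw [PiLp.smul_apply, dir_one, hs, smul_eq_mul, Complex.norm_mul_sin_arg]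

theorem hm_frontier_lt_top (K : Set E) (hK : IsCompact K) (hconv : Convex ℝ K)
    (hint : (interior K).Nonempty) : μH[1] (frontier K) < ∞ := by
  obtain ⟨R0, hR0⟩ := hK.isBounded.exists_norm_le
  set R := max R0 1 with hR
  have hRpos : 0 < R := lt_of_lt_of_le one_pos (le_max_right _ _)
  have hKR : ∀ x ∈ K, ‖x‖ ≤ R := fun x hx => (hR0 x hx).trans (le_max_left _ _)
  obtain ⟨π, hπL, hπ⟩ := exists_proj K (hint.mono interior_subset) hK.isClosed hconv
  set c : ℝ → E := fun τ => R • dir τ with hc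
  have hcL : LipschitzWith (Real.toNNReal (2 * R)) c := by
    apply LipschitzWith.of_dist_le_mul
    intro a b
    rw [Real.coe_toNNReal _ (by positivity), dist_eq_norm]
    have h1 : c a - c b = R • (dir a - dir b) := by rw [hc]; simp only [smul_sub]
    rw [h1, norm_smul, Real.norm_of_nonneg hRpos.le, mul_comm 2 R, mul_assoc]
    apply mul_le_mul_of_nonneg_left _ hRpos.le
    have hcos : |Real.cos a - Real.cos b| ≤ |a - b| := by
      have := Real.lipschitzWith_cos.dist_le_mul a b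
      simpa [Real.dist_eq] using this
    have hsin : |Real.sin a - Real.sin b| ≤ |a - b| := by
      have := Real.lipschitzWith_sin.dist_le_mul a b
      simpa [Real.dist_eq] using this
    have hsq : ‖dir a - dir b‖ ^ 2 ≤ (2 * dist a b) ^ 2 := by
      rw [← real_inner_self_eq_norm_sq, inner2, Real.dist_eq]
      simp only [PiLp.sub_apply, dir_zero, dir_one]
      have e1 := sq_le_sq' (by linarith [abs_nonneg (a - b), abs_nonneg (Real.cos a - Real.cos b)]) hcos
      have e2 := sq_le_sq' (by linarith [abs_nonneg (a - b), abs_nonneg (Real.sin a - Real.sin b)]) hsin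
      rw [sq_abs] at e1 e2
      rw [mul_pow]
      nlinarith [sq_abs (a - b), sq_nonneg (|a - b|)]
    exact abs_le_of_sq_le_sq' hsq (by positivity) |>.2
  have hsub : frontier K ⊆ π '' (c '' Icc 0 (2 * Real.pi)) := by
    intro x hx
    have hxK : x ∈ K := hK.isClosed.frontier_subset hx
    obtain ⟨n, hn0, -, hn⟩ := support K hconv hint hx.2
    obtain ⟨t, ht, hw, hexit⟩ := exit_point (closedBall 0 R) (isCompact_closedBall 0 R)
      (x := x) (n := n) (by simpa using hKR x hxK) hn0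
    set w := x + t • n with hwdef
    refine ⟨w, ?_, hπ x hxK n (fun y hy => by rw [inner_sub_right]; linarith [hn y hy]) t ht⟩
    have hwR : ‖w‖ = R := by
      have h1 : ‖w‖ ≤ R := by simpa using hw
      rcases h1.lt_or_eq with h2 | h2
      · exfalso
        have hwint : w ∈ interior (closedBall (0 : E) R) := by
          rw [interior_closedBall _ hRpos.ne']
          simpa using h2
        obtain ⟨ε, hε, hin⟩ := interior_push hwint n
        apply hexit (t + ε) (by linarith)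
        have : x + (t + ε) • n = w + ε • n := by rw [hwdef, add_smul]; abel
        rw [this]; exact hin
      · exact h2
    have hw0 : w ≠ 0 := by
      intro h
      rw [h, norm_zero] at hwR
      linarith
    obtain ⟨r, hr, τ, hτ, hwr⟩ := polar 0 w hw0
    refine ⟨τ, ⟨hτ.1, by linarith [hτ.2]⟩, ?_⟩
    have : r = R := by
      rw [hwr, norm_smul, norm_dir, mul_one, Real.norm_of_nonneg hr.le] at hwR
      exact hwR
    rw [hwr, this]
  calc μH[1] (frontier K) ≤ μH[1] (π '' (c '' Icc 0 (2 * Real.pi))) := measure_mono hsub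
    _ ≤ μH[1] (c '' Icc 0 (2 * Real.pi)) := hm_image_le hπL _
    _ ≤ (Real.toNNReal (2 * R) : ℝ≥0∞) ^ (1 : ℝ) * μH[1] (Icc 0 (2 * Real.pi)) :=
        hcL.hausdorffMeasure_image_le zero_le_one _
    _ < ∞ := by
        rw [hausdorffMeasure_real, Real.volume_Icc, ENNReal.rpow_one]
        exact ENNReal.mul_lt_top ENNReal.coe_lt_top ENNReal.ofReal_lt_top

theorem inner_J_dir (α r τ : ℝ) : ⟪J (dir α), r • dir τ⟫_ℝ = r * Real.sin (τ - α) := by
  rw [inner2, J_zero', J_one', PiLp.smul_apply, PiLp.smul_apply, dir_zero, dir_one, dir_zero,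
    dir_one, Real.sin_sub]
  simp only [smul_eq_mul]
  ring

theorem exists_sector (D : E → ℝ) (hc : Continuous D)
    (hhom : ∀ (r : ℝ) (x : E), D (r • x) = r * D x) (x0 : E) (hx0 : 0 < D x0) :
    ∃ φ ψ : E, φ ≠ 0 ∧ ψ ≠ 0 ∧ (∃ x, 0 < ⟪φ, x⟫_ℝ ∧ 0 < ⟪ψ, x⟫_ℝ) ∧
      (∀ x, 0 < ⟪φ, x⟫_ℝ → 0 < ⟪ψ, x⟫_ℝ → 0 < D x) ∧
      (∀ x, ⟪φ, x⟫_ℝ = 0 → D x = 0) ∧ (∀ x, ⟪ψ, x⟫_ℝ = 0 → D x = 0) := by
  have hD0 : D 0 = 0 := by simpa using hhom 0 0
  have hx00 : x0 ≠ 0 := by
    rintro rfl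
    rw [hD0] at hx0
    exact lt_irrefl _ hx0
  set f : ℝ → ℝ := fun τ => D (dir τ) with hf
  have hfc : Continuous f := hc.comp continuous_dir
  have hshift : ∀ τ, dir (τ + Real.pi) = (-1 : ℝ) • dir τ := by
    intro τ
    apply ext2
    · rw [PiLp.smul_apply, dir_zero, dir_zero, Real.cos_add_pi]; simp
    · rw [PiLp.smul_apply, dir_one, dir_one, Real.sin_add_pi]; simp
  have hfp : ∀ τ, f (τ + Real.pi) = -f τ := by
    intro τ
    show D (dir (τ + Real.pi)) = -D (dir τ)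
    rw [hshift, hhom]; ring
  have hfm : ∀ τ, f (τ - Real.pi) = -f τ := by
    intro τ
    have := hfp (τ - Real.pi)
    rw [sub_add_cancel] at this
    linarith
  obtain ⟨r0, hr0, θ, -, hx0r⟩ := polar 0 x0 hx00
  have hθ : 0 < f θ := by
    rw [hx0r, hhom] at hx0
    exact (mul_pos_iff_of_pos_left hr0).1 hx0
  have hπ := Real.pi_pos
  -- last zero before
  obtain ⟨α, hαmem, hαmax⟩ := ((isCompact_Icc (a := θ - Real.pi) (b := θ)).inter_right
    (isClosed_le hfc continuous_const : IsClosed {τ | f τ ≤ 0})).exists_isGreatest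
    ⟨θ - Real.pi, ⟨le_rfl, by linarith⟩, by
      show f (θ - Real.pi) ≤ 0
      rw [hfm]; linarith⟩
  obtain ⟨β, hβmem, hβmin⟩ := ((isCompact_Icc (a := θ) (b := θ + Real.pi)).inter_right
    (isClosed_le hfc continuous_const : IsClosed {τ | f τ ≤ 0})).exists_isLeast
    ⟨θ + Real.pi, ⟨by linarith, le_rfl⟩, by
      show f (θ + Real.pi) ≤ 0
      rw [hfp]; linarith⟩
  have hα1 : α ≤ θ := hαmem.1.2
  have hα2 : θ - Real.pi ≤ α := hαmem.1.1
  have hβ1 : θ ≤ β := hβmem.1.1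
  have hβ2 : β ≤ θ + Real.pi := hβmem.1.2
  have hαle : f α ≤ 0 := hαmem.2
  have hβle : f β ≤ 0 := hβmem.2
  have hα0 : f α = 0 := by
    obtain ⟨c, hc1, hc2⟩ := intermediate_value_Icc hα1 hfc.continuousOn ⟨hαle, hθ.le⟩
    have : c ≤ α := hαmax ⟨⟨hα2.trans hc1.1, hc1.2⟩, hc2.le⟩
    rw [← hc2, le_antisymm this hc1.1]
  have hβ0 : f β = 0 := by
    obtain ⟨c, hc1, hc2⟩ := intermediate_value_Icc' hβ1 hfc.continuousOn ⟨hβle, hθ.le⟩
    have : β ≤ c := hβmin ⟨⟨hc1.1, hc1.2.trans hβ2⟩, hc2.le⟩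
    rw [← hc2, le_antisymm hc1.2 this]
  have hαlt : α < θ := by
    rcases hα1.lt_or_eq with h | h
    · exact h
    · rw [h] at hα0; linarith
  have hβlt : θ < β := by
    rcases hβ1.lt_or_eq with h | h
    · exact h
    · rw [← h] at hβ0; linarith
  have hpos : ∀ τ, α < τ → τ < β → 0 < f τ := by
    intro τ h1 h2
    by_contra hcon
    push Not at hcon
    rcases le_total τ θ with h3 | h3
    · have : τ ≤ α := hαmax ⟨⟨by linarith, h3⟩, hcon⟩
      linarith
    · have : β ≤ τ := hβmin ⟨⟨h3, by linarith⟩, hcon⟩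
      linarith
  have hβα : β - α ≤ Real.pi := by
    by_contra hcon
    push Not at hcon
    have h1 := hpos ((α + (β - Real.pi)) / 2) (by linarith) (by linarith)
    have h2 := hpos ((α + (β - Real.pi)) / 2 + Real.pi) (by linarith) (by linarith)
    rw [hfp] at h2
    linarith
  have hφe : ∀ x : E, ⟪J (dir α), x⟫_ℝ = 0 → D x = 0 := by
    intro x hx
    rcases eq_or_ne x 0 with rfl | hx0
    · exact hD0
    · obtain ⟨r, hr, τ, hτ, rfl⟩ := polar α x hx0
      rw [inner_J_dir] at hx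
      have hs := (mul_eq_zero.1 hx).resolve_left hr.ne'
      rw [hhom]
      have h1 : 0 ≤ τ - α := by linarith [hτ.1]
      have h2 : τ - α < 2 * Real.pi := by linarith [hτ.2]
      have h3 : τ = α ∨ τ = α + Real.pi := by
        obtain ⟨m, hm⟩ := Real.sin_eq_zero_iff.1 hs
        have hm0 : (0 : ℝ) ≤ m := by
          by_contra hlt
          push Not at hlt
          nlinarith
        have hm2 : (m : ℝ) < 2 := by
          by_contra hlt
          push Not at hlt
          nlinarith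
        have hm0' : 0 ≤ m := by exact_mod_cast hm0
        have hm2' : m < 2 := by exact_mod_cast hm2
        interval_cases m
        · left; simp at hm; linarith
        · right; simp at hm; linarith
      rcases h3 with h3 | h3
      · rw [h3]
        show r * f α = 0
        rw [hα0, mul_zero]
      · rw [h3]
        show r * f (α + Real.pi) = 0
        rw [hfp, hα0]; ring
  have hψe : ∀ x : E, ⟪-J (dir β), x⟫_ℝ = 0 → D x = 0 := by
    intro x hx
    rw [inner_neg_left, neg_eq_zero] at hx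
    rcases eq_or_ne x 0 with rfl | hx0
    · exact hD0
    · obtain ⟨r, hr, τ, hτ, rfl⟩ := polar β x hx0
      rw [inner_J_dir] at hx
      have hs := (mul_eq_zero.1 hx).resolve_left hr.ne'
      rw [hhom]
      have h1 : 0 ≤ τ - β := by linarith [hτ.1]
      have h2 : τ - β < 2 * Real.pi := by linarith [hτ.2]
      have h3 : τ = β ∨ τ = β + Real.pi := by
        obtain ⟨m, hm⟩ := Real.sin_eq_zero_iff.1 hs
        have hm0 : (0 : ℝ) ≤ m := by
          by_contra hlt
          push Not at hlt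
          nlinarith
        have hm2 : (m : ℝ) < 2 := by
          by_contra hlt
          push Not at hlt
          nlinarith
        have hm0' : 0 ≤ m := by exact_mod_cast hm0
        have hm2' : m < 2 := by exact_mod_cast hm2
        interval_cases m
        · left; simp at hm; linarith
        · right; simp at hm; linarith
      rcases h3 with h3 | h3
      · rw [h3]
        show r * f β = 0
        rw [hβ0, mul_zero]
      · rw [h3]
        show r * f (β + Real.pi) = 0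
        rw [hfp, hβ0]; ring
  have hdir0 : ∀ τ, dir τ ≠ 0 := by
    intro τ h
    have := norm_dir τ
    rw [h, norm_zero] at this
    exact zero_ne_one this
  refine ⟨J (dir α), -J (dir β), J_ne_zero (hdir0 α), neg_ne_zero.2 (J_ne_zero (hdir0 β)),
    ⟨(1 : ℝ) • dir θ, ?_, ?_⟩, ?_, hφe, hψe⟩
  · rw [inner_J_dir, one_mul]
    apply Real.sin_pos_of_pos_of_lt_pi
    · linarith
    · linarith
  · rw [inner_neg_left, inner_J_dir, one_mul, ← Real.sin_neg]
    apply Real.sin_pos_of_pos_of_lt_pi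
    · linarith
    · linarith
  · intro x h1 h2
    have hx0 : x ≠ 0 := by
      rintro rfl
      rw [inner_zero_right] at h1
      exact lt_irrefl _ h1
    obtain ⟨r, hr, τ, hτ, rfl⟩ := polar α x hx0
    rw [inner_J_dir] at h1
    rw [inner_neg_left, inner_J_dir] at h2
    have s1 : 0 < Real.sin (τ - α) := (mul_pos_iff_of_pos_left hr).1 h1
    have s2 : Real.sin (τ - β) < 0 := by
      by_contra hcon
      push Not at hcon
      nlinarith
    have t0 : 0 ≤ τ - α := by linarith [hτ.1]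
    have t1 : α < τ := by
      rcases t0.lt_or_eq with h | h
      · linarith
      · rw [← h, Real.sin_zero] at s1
        exact absurd s1 (lt_irrefl _)
    have t2 : τ < α + Real.pi := by
      by_contra hcon
      push Not at hcon
      have : Real.sin (τ - α) ≤ 0 := by
        have h5 : Real.sin (τ - α) = - Real.sin (τ - α - Real.pi) := by
          rw [Real.sin_sub_pi]; ring
        rw [h5]
        have := Real.sin_nonneg_of_nonneg_of_le_pi (x := τ - α - Real.pi) (by linarith)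
          (by linarith [hτ.2])
        linarith
      linarith
    have t3 : τ < β := by
      by_contra hcon
      push Not at hcon
      have := Real.sin_nonneg_of_nonneg_of_le_pi (x := τ - β) (by linarith) (by linarith)
      linarith
    rw [hhom]
    exact mul_pos hr (hpos τ t1 t3)

theorem quadrant (ν : Measure E) [IsFiniteMeasure ν] (φ ψ : E)
    (h1 : ν {x | 0 < ⟪φ, x⟫_ℝ} = ν {x | ⟪φ, x⟫_ℝ < 0})
    (h2 : ν {x | 0 < ⟪ψ, x⟫_ℝ} = ν {x | ⟪ψ, x⟫_ℝ < 0})
    (z1 : ν {x | ⟪φ, x⟫_ℝ = 0} = 0) (z2 : ν {x | ⟪ψ, x⟫_ℝ = 0} = 0) :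
    ν ({x | 0 < ⟪φ, x⟫_ℝ} ∩ {x | 0 < ⟪ψ, x⟫_ℝ}) =
      ν ({x | ⟪φ, x⟫_ℝ < 0} ∩ {x | ⟪ψ, x⟫_ℝ < 0}) := by
  have key : ∀ (χ : E), ν {x | ⟪χ, x⟫_ℝ = 0} = 0 → ∀ A : Set E,
      ν A = ν (A ∩ {x | 0 < ⟪χ, x⟫_ℝ}) + ν (A ∩ {x | ⟪χ, x⟫_ℝ < 0}) := by
    intro χ hχ A
    have hm : MeasurableSet {x : E | 0 < ⟪χ, x⟫_ℝ} :=
      (isOpen_lt continuous_const (by fun_prop)).measurableSet
    apply le_antisymm
    · calc ν A ≤ ν ((A ∩ {x | 0 < ⟪χ, x⟫_ℝ}) ∪ (A ∩ {x | ⟪χ, x⟫_ℝ < 0}) ∪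
            {x | ⟪χ, x⟫_ℝ = 0}) := by
            apply measure_mono
            intro x hx
            rcases lt_trichotomy ⟪χ, x⟫_ℝ 0 with h | h | h
            · left; right; exact ⟨hx, h⟩
            · right; exact h
            · left; left; exact ⟨hx, h⟩
        _ ≤ ν ((A ∩ {x | 0 < ⟪χ, x⟫_ℝ}) ∪ (A ∩ {x | ⟪χ, x⟫_ℝ < 0})) +
            ν {x | ⟪χ, x⟫_ℝ = 0} := measure_union_le _ _
        _ = ν ((A ∩ {x | 0 < ⟪χ, x⟫_ℝ}) ∪ (A ∩ {x | ⟪χ, x⟫_ℝ < 0})) := by
            rw [hχ, add_zero]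
        _ ≤ _ := measure_union_le _ _
    · rw [← measure_inter_add_sdiff A hm]
      gcongr
      intro x hx
      refine ⟨hx.1, fun h => ?_⟩
      have h3 : ⟪χ, x⟫_ℝ < 0 := hx.2
      have h4 : 0 < ⟪χ, x⟫_ℝ := h
      linarith
  set a := ν ({x | 0 < ⟪φ, x⟫_ℝ} ∩ {x | 0 < ⟪ψ, x⟫_ℝ}) with ha
  set b := ν ({x | 0 < ⟪φ, x⟫_ℝ} ∩ {x | ⟪ψ, x⟫_ℝ < 0}) with hb
  set c := ν ({x | ⟪φ, x⟫_ℝ < 0} ∩ {x | 0 < ⟪ψ, x⟫_ℝ}) with hc
  set d := ν ({x | ⟪φ, x⟫_ℝ < 0} ∩ {x | ⟪ψ, x⟫_ℝ < 0}) with hd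
  have e1 : a + b = c + d := by
    rw [ha, hb, ← key ψ z2, hc, hd, ← key ψ z2, h1]
  have e2 : a + c = b + d := by
    have f1 := key φ z1 {x | 0 < ⟪ψ, x⟫_ℝ}
    have f2 := key φ z1 {x | ⟪ψ, x⟫_ℝ < 0}
    rw [inter_comm _ {x | 0 < ⟪φ, x⟫_ℝ}, inter_comm _ {x | ⟪φ, x⟫_ℝ < 0}] at f1 f2
    rw [ha, hb, hc, hd, ← f1, ← f2, h2]
  have na : a ≠ ∞ := measure_ne_top _ _
  have nb : b ≠ ∞ := measure_ne_top _ _
  have nc : c ≠ ∞ := measure_ne_top _ _
  have nd : d ≠ ∞ := measure_ne_top _ _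
  have r1 := congrArg ENNReal.toReal e1
  have r2 := congrArg ENNReal.toReal e2
  rw [ENNReal.toReal_add na nb, ENNReal.toReal_add nc nd] at r1
  rw [ENNReal.toReal_add na nc, ENNReal.toReal_add nb nd] at r2
  exact (ENNReal.toReal_eq_toReal_iff' na nd).1 (by linarith)

theorem line_null (K : Set E) (hconv : Convex ℝ K) (h0 : K ∈ 𝓝 0) (φ : E) (hφ : φ ≠ 0) :
    μH[1] (frontier K ∩ {x | ⟪φ, x⟫_ℝ = 0}) = 0 := by
  have hsub : frontier K ∩ {x | ⟪φ, x⟫_ℝ = 0} ⊆
      {(gauge K (J φ))⁻¹ • J φ, (gauge K (-J φ))⁻¹ • (-J φ)} := by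
    rintro x ⟨hx, hx0⟩
    have hg := (gauge_eq_one_iff_mem_frontier hconv h0).2 hx
    have hJ : ‖J φ‖ ^ 2 ≠ 0 := pow_ne_zero _ (norm_ne_zero_iff.2 (J_ne_zero hφ))
    obtain ⟨c, hc⟩ : ∃ c : ℝ, x = c • J φ := by
      refine ⟨⟪J φ, x⟫_ℝ / ‖J φ‖ ^ 2, eq_of_inner hφ ?_ ?_⟩
      · rw [inner_smul_right, J_inner_self, mul_zero]; exact hx0
      · rw [inner_smul_right, real_inner_self_eq_norm_sq, div_mul_cancel₀ _ hJ]
    rcases le_total 0 c with h | h
    · left
      rw [hc, gauge_smul_of_nonneg h, smul_eq_mul] at hg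
      rw [hc, eq_inv_of_mul_eq_one_left hg]
    · right
      have hc' : x = (-c) • (-J φ) := by rw [hc]; simp
      rw [hc', gauge_smul_of_nonneg (by linarith), smul_eq_mul] at hg
      rw [mem_singleton_iff, hc', eq_inv_of_mul_eq_one_left hg]
  exact measure_mono_null hsub (hm_finite_null _ (by simp))

theorem crossing (φ ψ a b : E) (ha1 : 0 < ⟪φ, a⟫_ℝ) (ha2 : 0 < ⟪ψ, a⟫_ℝ)
    (hb : ¬(0 < ⟪φ, b⟫_ℝ ∧ 0 < ⟪ψ, b⟫_ℝ)) :
    ∃ t : ℝ, 0 < t ∧ t ≤ 1 ∧
      (⟪φ, (1 - t) • a + t • b⟫_ℝ = 0 ∨ ⟪ψ, (1 - t) • a + t • b⟫_ℝ = 0) := by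
  set g : ℝ → ℝ := fun t => min ⟪φ, (1 - t) • a + t • b⟫_ℝ ⟪ψ, (1 - t) • a + t • b⟫_ℝ with hg
  have hgc : Continuous g := by
    rw [hg]
    fun_prop
  have hg0 : 0 < g 0 := by
    show 0 < min ⟪φ, (1 - (0 : ℝ)) • a + (0 : ℝ) • b⟫_ℝ ⟪ψ, (1 - (0 : ℝ)) • a + (0 : ℝ) • b⟫_ℝ
    simp only [sub_zero, one_smul, zero_smul, add_zero]
    exact lt_min ha1 ha2
  have hg1 : g 1 ≤ 0 := by
    show min ⟪φ, (1 - (1 : ℝ)) • a + (1 : ℝ) • b⟫_ℝ ⟪ψ, (1 - (1 : ℝ)) • a + (1 : ℝ) • b⟫_ℝ ≤ 0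
    simp only [sub_self, one_smul, zero_smul, zero_add]
    by_contra hcon
    push Not at hcon
    exact hb (lt_min_iff.1 hcon)
  obtain ⟨t, ht, hgt⟩ := intermediate_value_Icc' zero_le_one hgc.continuousOn ⟨hg1, hg0.le⟩
  refine ⟨t, ?_, ht.2, ?_⟩
  · rcases ht.1.lt_or_eq with h | h
    · exact h
    · rw [← h] at hgt; linarith
  · have hgt' : min ⟪φ, (1 - t) • a + t • b⟫_ℝ ⟪ψ, (1 - t) • a + t • b⟫_ℝ = 0 := hgt
    rcases min_choice ⟪φ, (1 - t) • a + t • b⟫_ℝ ⟪ψ, (1 - t) • a + t • b⟫_ℝ with h | h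
    · left; rw [← h]; exact hgt'
    · right; rw [← h]; exact hgt'

theorem negK_frontier (K : Set E) (x : E) :
    x ∈ frontier ((fun x : E => -x) ⁻¹' K) ↔ -x ∈ frontier K := by
  have h : frontier ((fun x : E => -x) ⁻¹' K) = (fun x : E => -x) ⁻¹' (frontier K) :=
    ((Homeomorph.neg E).preimage_frontier K).symm
  rw [h]; rfl

theorem strict (K : Set E) (hK : IsCompact K) (hconv : Convex ℝ K) (h0 : K ∈ 𝓝 0) (φ ψ : E)
    (hex : ∃ x, 0 < ⟪φ, x⟫_ℝ ∧ 0 < ⟪ψ, x⟫_ℝ)
    (hpos : ∀ x, 0 < ⟪φ, x⟫_ℝ → 0 < ⟪ψ, x⟫_ℝ → gauge K x < gauge K (-x))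
    (hz1 : ∀ x, ⟪φ, x⟫_ℝ = 0 → gauge K x = gauge K (-x))
    (hz2 : ∀ x, ⟪ψ, x⟫_ℝ = 0 → gauge K x = gauge K (-x)) :
    μH[1] (frontier ((fun x : E => -x) ⁻¹' K) ∩ {x | 0 < ⟪φ, x⟫_ℝ ∧ 0 < ⟪ψ, x⟫_ℝ}) <
      μH[1] (frontier K ∩ {x | 0 < ⟪φ, x⟫_ℝ ∧ 0 < ⟪ψ, x⟫_ℝ}) := by
  set K' := (fun x : E => -x) ⁻¹' K with hK'def
  set S := {x : E | 0 < ⟪φ, x⟫_ℝ ∧ 0 < ⟪ψ, x⟫_ℝ} with hS
  have hcl := hK.isClosed
  have h0K : (0 : E) ∈ K := mem_of_mem_nhds h0
  have hmemK : ∀ x, x ∈ K ↔ gauge K x ≤ 1 := by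
    intro x
    rw [gauge_le_one_iff_mem_closure hconv h0, hcl.closure_eq]
  have hmemK' : ∀ x, x ∈ K' ↔ gauge K (-x) ≤ 1 := fun x => hmemK (-x)
  have hK'cl : IsClosed K' := hcl.preimage continuous_neg
  have hK'conv : Convex ℝ K' := by
    intro x hx y hy a b ha hb hab
    show -(a • x + b • y) ∈ K
    have h1 : -(a • x + b • y) = a • (-x) + b • (-y) := by
      rw [smul_neg, smul_neg]; abel
    rw [h1]
    exact hconv hx hy ha hb hab
  have h0K' : (0 : E) ∈ K' := by show -(0 : E) ∈ K; rwa [neg_zero]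
  have hint : (interior K).Nonempty := ⟨0, mem_interior_iff_mem_nhds.2 h0⟩
  have hint' : (interior K').Nonempty := by
    refine ⟨0, ?_⟩
    have : (fun x : E => -x) ⁻¹' (interior K) ⊆ interior K' :=
      interior_maximal (preimage_mono interior_subset) (isOpen_interior.preimage continuous_neg)
    apply this
    show -(0 : E) ∈ interior K
    rw [neg_zero]
    exact mem_interior_iff_mem_nhds.2 h0
  -- crossing points lie in both bodies
  have hcross : ∀ z, z ∈ K → (⟪φ, z⟫_ℝ = 0 ∨ ⟪ψ, z⟫_ℝ = 0) → z ∈ K' := by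
    intro z hz h
    rw [hmemK']
    have : gauge K z = gauge K (-z) := by
      rcases h with h | h
      · exact hz1 z h
      · exact hz2 z h
    rw [← this]
    exact (hmemK z).1 hz
  have hSK : ∀ x ∈ S, x ∈ K' → x ∈ K := by
    intro x hx hxK'
    rw [hmemK]
    exact ((hpos x hx.1 hx.2).trans_le ((hmemK' x).1 hxK')).le
  -- a point of K outside K'
  obtain ⟨y0, hy0S, hy0K, hy0K'⟩ : ∃ y0, y0 ∈ S ∧ y0 ∈ K ∧ y0 ∉ K' := by
    obtain ⟨x, hx1, hx2⟩ := hex
    have hx0 : x ≠ 0 := by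
      rintro rfl
      rw [inner_zero_right] at hx1
      exact lt_irrefl _ hx1
    have hgp : 0 < gauge K x :=
      (gauge_pos (absorbent_nhds_zero h0) ((NormedSpace.isVonNBounded_iff ℝ).2 hK.isBounded)).2 hx0
    have hgi : 0 < (gauge K x)⁻¹ := inv_pos.2 hgp
    have hS1 : (gauge K x)⁻¹ • x ∈ S := by
      refine ⟨?_, ?_⟩
      · show 0 < ⟪φ, (gauge K x)⁻¹ • x⟫_ℝ
        rw [inner_smul_right]; exact mul_pos hgi hx1
      · show 0 < ⟪ψ, (gauge K x)⁻¹ • x⟫_ℝ
        rw [inner_smul_right]; exact mul_pos hgi hx2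
    have hg1 : gauge K ((gauge K x)⁻¹ • x) = 1 := by
      rw [gauge_smul_of_nonneg hgi.le, smul_eq_mul, inv_mul_cancel₀ hgp.ne']
    refine ⟨(gauge K x)⁻¹ • x, hS1, (hmemK _).2 hg1.le, ?_⟩
    rw [hmemK']
    have := hpos _ hS1.1 hS1.2
    rw [hg1] at this
    exact not_le.2 this
  obtain ⟨f, u, hfu, hfy⟩ := geometric_hahn_banach_closed_point hK'conv hK'cl hy0K'
  obtain ⟨v, hv⟩ := riesz f
  simp only [← hv] at hfu hfy
  -- the part of K beyond the line lies in the sector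
  have hbeyond : ∀ y ∈ K, u < ⟪v, y⟫_ℝ → y ∈ S := by
    intro y hy hyu
    by_contra hyS
    obtain ⟨t, ht0, ht1, ht⟩ := crossing φ ψ y0 y hy0S.1 hy0S.2 hyS
    have hzK : (1 - t) • y0 + t • y ∈ K := hconv hy0K hy (by linarith) ht0.le (by ring)
    have hzK' := hcross _ hzK ht
    have := hfu _ hzK'
    rw [inner_add_right, inner_smul_right, inner_smul_right] at this
    nlinarith
  obtain ⟨π, hπL, hπ⟩ := exists_proj K' ⟨0, h0K'⟩ hK'cl hK'conv
  set M := K ∩ {x : E | ⟪v, x⟫_ℝ ≤ u} with hM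
  have hMc : IsCompact M := hK.inter_right (isClosed_le (by fun_prop) continuous_const)
  have hMconv : Convex ℝ M := hconv.inter (convex_leS v u)
  have hcover : frontier K' ∩ S ⊆
      π '' ((frontier K ∩ S ∩ {x | ⟪v, x⟫_ℝ < u}) ∪ (K ∩ {x | ⟪v, x⟫_ℝ = u})) := by
    rintro x ⟨hxf, hxS⟩
    have hxK' : x ∈ K' := hK'cl.frontier_subset hxf
    have hxK : x ∈ K := hSK x hxS hxK'
    obtain ⟨n, hn0, -, hn⟩ := support K' hK'conv hint' hxf.2
    have hxM : x ∈ M := ⟨hxK, (hfu x hxK').le⟩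
    obtain ⟨t, ht, hwM, hexit⟩ := exit_point M hMc hxM hn0
    refine ⟨x + t • n, ?_, hπ x hxK' n (fun y hy => by rw [inner_sub_right]; linarith [hn y hy]) t ht⟩
    have hwu : ⟪v, x + t • n⟫_ℝ ≤ u := hwM.2
    rcases hwu.lt_or_eq with hlt | heq
    · left
      refine ⟨⟨⟨subset_closure hwM.1, fun hwint => ?_⟩, ?_⟩, hlt⟩
      · have hopen : IsOpen {z : E | ⟪v, z⟫_ℝ < u} := isOpen_lt (by fun_prop) continuous_const
        have hwint2 : x + t • n ∈ interior M := by
          have hsub : interior K ∩ {z : E | ⟪v, z⟫_ℝ < u} ⊆ interior M :=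
            interior_maximal (fun z hz => ⟨interior_subset hz.1, by
              have h5 : ⟪v, z⟫_ℝ < u := hz.2
              exact h5.le⟩) (isOpen_interior.inter hopen)
          exact hsub ⟨hwint, hlt⟩
        obtain ⟨ε, hε, hin⟩ := interior_push hwint2 n
        apply hexit (t + ε) (by linarith)
        have : x + (t + ε) • n = x + t • n + ε • n := by rw [add_smul]; abel
        rw [this]; exact hin
      · by_contra hwS
        obtain ⟨s, hs0, hs1, hs⟩ := crossing φ ψ x (x + t • n) hxS.1 hxS.2 hwS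
        have hzK : (1 - s) • x + s • (x + t • n) ∈ K :=
          hconv hxK hwM.1 (by linarith) hs0.le (by ring)
        have hzK' := hcross _ hzK hs
        have h1 := hn _ hzK'
        have h2 : (1 - s) • x + s • (x + t • n) = x + (s * t) • n := by
          rw [smul_add, smul_smul, ← add_assoc, ← add_smul]
          simp
        rw [h2, inner_add_right, inner_smul_right, real_inner_self_eq_norm_sq] at h1
        have hnn : 0 < ‖n‖ := norm_pos_iff.2 hn0
        have htpos : 0 < t := by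
          rcases ht.lt_or_eq with h | h
          · exact h
          · exfalso
            apply hwS
            rw [← h]
            simpa using hxS
        have : 0 < s * t * ‖n‖ ^ 2 := by positivity
        linarith
    · right
      exact ⟨hwM.1, heq⟩
  have hcap := cap K hK hconv hint v u h0K hy0K (hfu 0 h0K') hfy
  have hfin : μH[1] (frontier K ∩ S ∩ {x | ⟪v, x⟫_ℝ < u}) ≠ ∞ :=
    ((measure_mono (inter_subset_left.trans inter_subset_left)).trans_lt
      (hm_frontier_lt_top K hK hconv hint)).ne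
  have hmeas : MeasurableSet (frontier K ∩ {x : E | u < ⟪v, x⟫_ℝ}) :=
    isClosed_frontier.measurableSet.inter (isOpen_lt continuous_const (by fun_prop)).measurableSet
  calc μH[1] (frontier K' ∩ S)
      ≤ μH[1] (π '' ((frontier K ∩ S ∩ {x | ⟪v, x⟫_ℝ < u}) ∪ (K ∩ {x | ⟪v, x⟫_ℝ = u}))) :=
        measure_mono hcover
    _ ≤ μH[1] ((frontier K ∩ S ∩ {x | ⟪v, x⟫_ℝ < u}) ∪ (K ∩ {x | ⟪v, x⟫_ℝ = u})) :=
        hm_image_le hπL _
    _ ≤ μH[1] (frontier K ∩ S ∩ {x | ⟪v, x⟫_ℝ < u}) + μH[1] (K ∩ {x | ⟪v, x⟫_ℝ = u}) :=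
        measure_union_le _ _
    _ < μH[1] (frontier K ∩ S ∩ {x | ⟪v, x⟫_ℝ < u}) + μH[1] (frontier K ∩ {x | u < ⟪v, x⟫_ℝ}) :=
        ENNReal.add_lt_add_left hfin hcap
    _ = μH[1] ((frontier K ∩ S ∩ {x | ⟪v, x⟫_ℝ < u}) ∪ (frontier K ∩ {x | u < ⟪v, x⟫_ℝ})) := by
        rw [measure_union _ hmeas]
        rw [Set.disjoint_left]
        intro x hx hx2
        have h1 : ⟪v, x⟫_ℝ < u := hx.2
        have h2 : u < ⟪v, x⟫_ℝ := hx2.2
        linarith
    _ ≤ μH[1] (frontier K ∩ S) := by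
        apply measure_mono
        rintro x (hx | hx)
        · exact hx.1
        · exact ⟨hx.1, hbeyond x (hcl.frontier_subset hx.1) hx.2⟩

theorem zero_mem_interior (K : Set E) (hK : IsCompact K) (hconv : Convex ℝ K)
    (hint : (interior K).Nonempty)
    (h : ∀ w : E, w ≠ 0 → μH[1] (frontier K ∩ {x | 0 < ⟪w, x⟫_ℝ}) =
      μH[1] (frontier K ∩ {x | ⟪w, x⟫_ℝ < 0})) : (0 : E) ∈ interior K := by
  by_contra h0
  obtain ⟨n, hn0, hni, hn⟩ := support K hconv hint h0
  simp only [inner_zero_right] at hni hn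
  have h1 := h n hn0
  have h2 : frontier K ∩ {x : E | 0 < ⟪n, x⟫_ℝ} = ∅ := by
    rw [Set.eq_empty_iff_forall_notMem]
    rintro x ⟨hx1, hx2⟩
    have h3 : 0 < ⟪n, x⟫_ℝ := hx2
    linarith [hn x (hK.isClosed.frontier_subset hx1)]
  rw [h2, measure_empty] at h1
  obtain ⟨c, hc⟩ := hint
  have hcn := hni c hc
  have hnn : 0 < ‖n‖ := norm_pos_iff.2 hn0
  obtain ⟨ε, hε, hin⟩ := interior_push hc n
  obtain ⟨δ, hδ, hin2⟩ := interior_push hc (-n)
  have hcap := cap K hK hconv ⟨c, hc⟩ (-n) ⟪-n, c⟫_ℝ hin hin2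
    (by
      rw [inner_add_right, inner_smul_right, inner_neg_left, inner_neg_left,
        real_inner_self_eq_norm_sq]
      have : 0 < ε * ‖n‖ ^ 2 := by positivity
      linarith)
    (by
      rw [inner_add_right, inner_smul_right, real_inner_self_eq_norm_sq, norm_neg]
      have : 0 < δ * ‖n‖ ^ 2 := by positivity
      linarith)
  have hle : μH[1] (frontier K ∩ {x : E | ⟪-n, c⟫_ℝ < ⟪-n, x⟫_ℝ}) ≤
      μH[1] (frontier K ∩ {x : E | ⟪n, x⟫_ℝ < 0}) := by
    apply measure_mono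
    rintro x ⟨hx1, hx2⟩
    refine ⟨hx1, ?_⟩
    have h3 : ⟪-n, c⟫_ℝ < ⟪-n, x⟫_ℝ := hx2
    rw [inner_neg_left, inner_neg_left] at h3
    show ⟪n, x⟫_ℝ < 0
    linarith
  rw [← h1] at hle
  exact not_lt_zero (hcap.trans_le hle)

theorem main0 (K : Set E) (hK : IsCompact K) (hconv : Convex ℝ K)
    (hint : (interior K).Nonempty)
    (h : ∀ w : E, w ≠ 0 → μH[1] (frontier K ∩ {x | 0 < ⟪w, x⟫_ℝ}) =
      μH[1] (frontier K ∩ {x | ⟪w, x⟫_ℝ < 0})) : ∀ x ∈ frontier K, -x ∈ frontier K := by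
  have h0 : K ∈ 𝓝 0 := mem_interior_iff_mem_nhds.1 (zero_mem_interior K hK hconv hint h)
  by_contra hcon
  push Not at hcon
  obtain ⟨x, hx1, hx2⟩ := hcon
  have hg := continuous_gauge hconv h0
  rw [← gauge_eq_one_iff_mem_frontier hconv h0] at hx1 hx2
  set D : E → ℝ := fun x => gauge K (-x) - gauge K x with hD
  have hDc : Continuous D := (hg.comp continuous_neg).sub hg
  have hhom : ∀ (r : ℝ) (x : E), D (r • x) = r * D x := by
    intro r x
    show gauge K (-(r • x)) - gauge K (r • x) = r * (gauge K (-x) - gauge K x)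
    rcases le_total 0 r with hr | hr
    · rw [← smul_neg, gauge_smul_of_nonneg hr, gauge_smul_of_nonneg hr, smul_eq_mul, smul_eq_mul]
      ring
    · have e1 : -(r • x) = (-r) • x := by simp
      have e2 : r • x = (-r) • (-x) := by simp
      rw [e1, e2, gauge_smul_of_nonneg (by linarith), gauge_smul_of_nonneg (by linarith),
        smul_eq_mul, smul_eq_mul]
      ring
  have hDx : D x ≠ 0 := by
    show gauge K (-x) - gauge K x ≠ 0
    rw [hx1]
    intro h3
    exact hx2 (by linarith)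
  obtain ⟨x0, hx0⟩ : ∃ x0, 0 < D x0 := by
    rcases lt_or_gt_of_ne hDx with h3 | h3
    · refine ⟨(-1 : ℝ) • x, ?_⟩
      rw [hhom]; linarith
    · exact ⟨x, h3⟩
  obtain ⟨φ, ψ, hφ, hψ, hex, hpos, hz1, hz2⟩ := exists_sector D hDc hhom x0 hx0
  have hstrict := strict K hK hconv h0 φ ψ hex
    (fun x a b => by have := hpos x a b; simp only [hD] at this; linarith)
    (fun x a => by have := hz1 x a; simp only [hD] at this; linarith)
    (fun x a => by have := hz2 x a; simp only [hD] at this; linarith)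
  have hfin := hm_frontier_lt_top K hK hconv hint
  have : IsFiniteMeasure ((μH[1] : Measure E).restrict (frontier K)) :=
    ⟨by rw [Measure.restrict_apply_univ]; exact hfin⟩
  have mlt : ∀ w : E, MeasurableSet {x : E | ⟪w, x⟫_ℝ < 0} := fun w =>
    (isOpen_lt (by fun_prop) continuous_const).measurableSet
  have mgt : ∀ w : E, MeasurableSet {x : E | 0 < ⟪w, x⟫_ℝ} := fun w =>
    (isOpen_lt continuous_const (by fun_prop)).measurableSet
  have meq : ∀ w : E, MeasurableSet {x : E | ⟪w, x⟫_ℝ = 0} := fun w =>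
    (isClosed_eq (by fun_prop) continuous_const).measurableSet
  have hq := quadrant ((μH[1] : Measure E).restrict (frontier K)) φ ψ
    (by rw [Measure.restrict_apply (mgt φ), Measure.restrict_apply (mlt φ), inter_comm, h φ hφ,
      inter_comm])
    (by rw [Measure.restrict_apply (mgt ψ), Measure.restrict_apply (mlt ψ), inter_comm, h ψ hψ,
      inter_comm])
    (by rw [Measure.restrict_apply (meq φ), inter_comm]; exact line_null K hconv h0 φ hφ)
    (by rw [Measure.restrict_apply (meq ψ), inter_comm]; exact line_null K hconv h0 ψ hψ)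
  rw [Measure.restrict_apply ((mgt φ).inter (mgt ψ)),
    Measure.restrict_apply ((mlt φ).inter (mlt ψ))] at hq
  have hneg : μH[1] (frontier ((fun x : E => -x) ⁻¹' K) ∩ {x | 0 < ⟪φ, x⟫_ℝ ∧ 0 < ⟪ψ, x⟫_ℝ}) =
      μH[1] ({x | ⟪φ, x⟫_ℝ < 0} ∩ {x | ⟪ψ, x⟫_ℝ < 0} ∩ frontier K) := by
    rw [← (LinearIsometryEquiv.neg ℝ (E := E)).toIsometryEquiv.hausdorffMeasure_preimage]
    congr 1
    ext z
    have e1 : (LinearIsometryEquiv.neg ℝ (E := E)).toIsometryEquiv z = -z := rfl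
    rw [mem_preimage, e1, mem_inter_iff, negK_frontier, neg_neg]
    simp only [mem_inter_iff, mem_ofPred_eq, inner_neg_right]
    constructor
    · rintro ⟨a, b, c⟩
      exact ⟨⟨by linarith, by linarith⟩, a⟩
    · rintro ⟨⟨b, c⟩, a⟩
      exact ⟨a, by linarith, by linarith⟩
  rw [hneg, ← hq] at hstrict
  apply lt_irrefl _ (hstrict.trans_eq _)
  rw [inter_comm]
  rfl

theorem main (K : Set E) (hK : IsCompact K) (hconv : Convex ℝ K)
    (hint : (interior K).Nonempty) (O : E)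
    (h : ∀ w : E, w ≠ 0 → μH[1] (frontier K ∩ {x | 0 < ⟪w, x - O⟫_ℝ}) =
      μH[1] (frontier K ∩ {x | ⟪w, x - O⟫_ℝ < 0})) :
    (fun x : E => (2 : ℝ) • O - x) '' frontier K = frontier K := by
  set K0 := (fun x : E => x + O) ⁻¹' K with hK0
  have hfr : ∀ x, x ∈ frontier K0 ↔ x + O ∈ frontier K := by
    intro x
    have h1 : frontier K0 = (fun x : E => x + O) ⁻¹' (frontier K) :=
      ((Homeomorph.addRight O).preimage_frontier K).symm
    rw [h1]; rfl
  have hmain := main0 K0 ((Homeomorph.addRight O).isCompact_preimage.2 hK)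
    (hconv.translate_preimage_left O) (by
      obtain ⟨c, hc⟩ := hint
      refine ⟨c - O, ?_⟩
      have h1 : interior K0 = (fun x : E => x + O) ⁻¹' (interior K) :=
        ((Homeomorph.addRight O).preimage_interior K).symm
      rw [h1]
      show c - O + O ∈ interior K
      rwa [sub_add_cancel]) (by
      intro w hw
      have h1 := h w hw
      have e1 : frontier K0 ∩ {x : E | 0 < ⟪w, x⟫_ℝ} =
          (IsometryEquiv.addRight O) ⁻¹' (frontier K ∩ {x | 0 < ⟪w, x - O⟫_ℝ}) := by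
        ext z
        rw [mem_inter_iff, hfr, mem_preimage, IsometryEquiv.addRight_apply, mem_inter_iff]
        simp only [mem_ofPred_eq, add_sub_cancel_right]
      have e2 : frontier K0 ∩ {x : E | ⟪w, x⟫_ℝ < 0} =
          (IsometryEquiv.addRight O) ⁻¹' (frontier K ∩ {x | ⟪w, x - O⟫_ℝ < 0}) := by
        ext z
        rw [mem_inter_iff, hfr, mem_preimage, IsometryEquiv.addRight_apply, mem_inter_iff]
        simp only [mem_ofPred_eq, add_sub_cancel_right]
      rw [e1, e2, IsometryEquiv.hausdorffMeasure_preimage,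
        IsometryEquiv.hausdorffMeasure_preimage, h1])
  have hsub : ∀ x ∈ frontier K, (2 : ℝ) • O - x ∈ frontier K := by
    intro x hx
    have h1 : x - O ∈ frontier K0 := by rw [hfr, sub_add_cancel]; exact hx
    have h2 := hmain _ h1
    rw [hfr] at h2
    have h3 : (2 : ℝ) • O - x = -(x - O) + O := by rw [two_smul]; abel
    rw [h3]; exact h2
  apply Subset.antisymm
  · rintro _ ⟨x, hx, rfl⟩
    exact hsub x hx
  · intro x hx
    refine ⟨(2 : ℝ) • O - x, hsub x hx, ?_⟩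
    show (2 : ℝ) • O - ((2 : ℝ) • O - x) = x
    abel

/-- **Klamkin's question, answered affirmatively.**  Let `K` be a compact convex set with
nonempty interior in the plane and `O` a point such that every line through `O` bisects the
perimeter of the curve `frontier K`.  Then the curve is centrally symmetric about `O`. -/
theorem result (K : Set E) (hK : IsCompact K) (hconv : Convex ℝ K)
    (hint : (interior K).Nonempty) (O : E)
    (h : ∀ w : E, w ≠ 0 → Bisects (frontier K) O w) :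
    CentrallySymmetric (frontier K) O :=
  main K hK hconv hint O h

end Pool.Agent.Results.MP_7f2f72_gt.PerimeterBisect
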